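import Pool.Agent.Q324.CC.Defs

/-!
# Graphs of circular chromatic number smaller than three
-/

namespace Pool.Agent.Q324.CC

/-- the condition for the colours of adjacent vertices -/
def A (p q a b : ℕ) : Prop := (a + q ≤ b ∧ b + q ≤ a + p) ∨ (b + q ≤ a ∧ a + q ≤ b + p)

theorem a_iff (p q a b : ℕ) (hq : 0 < q) : A p q a b ↔ (q : ℤ) ≤ |(a : ℤ) - (b : ℤ)| ∧
    |(a : ℤ) - (b : ℤ)| ≤ (p : ℤ) - q := by
  unfold A
  rcases abs_cases ((a : ℤ) - (b : ℤ)) with ⟨h, h'⟩ | ⟨h, h'⟩ <;> rw [h] <;> omega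

instance (p q a b : ℕ) : Decidable (A p q a b) := by unfold A; infer_instance

/-- Some `(p, q)`-colouring with `2 q ≤ p < 3 q` exists. -/
def Small {V : Type*} (G : SimpleGraph V) : Prop :=
  ∃ p q : ℕ, 0 < q ∧ 2 * q ≤ p ∧ p < 3 * q ∧ ∃ f : V → ℕ, (∀ v, f v < p) ∧
    ∀ u v, G.Adj u v → A p q (f u) (f v)

theorem circ_lt_three {n : ℕ} (G : SimpleGraph (Fin n)) : circ G < 3 ↔ Small G := by
  have hbdd : BddBelow {x : ℝ | ∃ p q : ℕ, 2 ≤ 2 * q ∧ 2 * q ≤ p ∧
      (∃ c : Fin n → Fin p, IsColoring G p q c) ∧ x = (p : ℝ) / (q : ℝ)} := by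
    refine ⟨0, ?_⟩
    rintro x ⟨p, q, -, -, -, rfl⟩
    positivity
  have hne : {x : ℝ | ∃ p q : ℕ, 2 ≤ 2 * q ∧ 2 * q ≤ p ∧
      (∃ c : Fin n → Fin p, IsColoring G p q c) ∧ x = (p : ℝ) / (q : ℝ)}.Nonempty := by
    refine ⟨_, n + 2, 1, by norm_num, by omega, ⟨fun v => ⟨v, by omega⟩, ?_⟩, rfl⟩
    intro u v huv
    have h1 : (u : ℕ) ≠ (v : ℕ) := fun h => G.ne_of_adj huv (Fin.ext h)
    have h2 := u.2
    have h3 := v.2
    rw [← a_iff _ _ _ _ one_pos]
    unfold A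
    simp only
    omega
  unfold circ
  rw [csInf_lt_iff hbdd hne]
  constructor
  · rintro ⟨x, ⟨p, q, hq, hp, ⟨c, hc⟩, rfl⟩, hx⟩
    have hq' : (0 : ℝ) < q := by exact_mod_cast (by omega : 0 < q)
    rw [div_lt_iff₀ hq'] at hx
    refine ⟨p, q, by omega, hp, by exact_mod_cast hx, fun v => c v, fun v => (c v).2, ?_⟩
    intro u v huv
    exact (a_iff _ _ _ _ (by omega)).2 (hc u v huv)
  · rintro ⟨p, q, hq, hp, hpq, f, hf, h⟩
    have hq' : (0 : ℝ) < q := by exact_mod_cast hq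
    refine ⟨_, ⟨p, q, by omega, hp, ⟨fun v => ⟨f v, hf v⟩, ?_⟩, rfl⟩, ?_⟩
    · intro u v huv
      exact (a_iff _ _ _ _ hq).1 (h u v huv)
    · rw [div_lt_iff₀ hq']
      exact_mod_cast hpq

/-! ### Certificates -/

/-- the condition for the two vertices of an edge: colour and rank -/
def B (a b : ℕ × ℕ) : Prop := a.1 < 3 ∧ b.1 < 3 ∧ a.1 ≠ b.1 ∧ (b.1 = (a.1 + 1) % 3 → a.2 < b.2)

theorem rank_aux {p q a b : ℕ} (hq : 0 < q) (hp : p < 3 * q) (ha : a < p) (hb : b < p)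
    (h : A p q a b) : B (a / q, 3 * (a % q) + a / q) (b / q, 3 * (b % q) + b / q) := by
  have h1 : a / q < 3 := Nat.div_lt_of_lt_mul (by omega)
  have h2 : b / q < 3 := Nat.div_lt_of_lt_mul (by omega)
  have h3 := Nat.mod_lt a hq
  have h4 := Nat.mod_lt b hq
  have h5 := Nat.div_add_mod a q
  have h6 := Nat.div_add_mod b q
  unfold A at h
  unfold B
  simp only
  generalize a / q = i at *
  generalize b / q = j at *
  generalize a % q = r at *
  generalize b % q = s at *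
  have hi : i = 0 ∨ i = 1 ∨ i = 2 := by omega
  have hj : j = 0 ∨ j = 1 ∨ j = 2 := by omega
  rcases hi with rfl | rfl | rfl <;> rcases hj with rfl | rfl | rfl <;> omega

theorem small_iff {n : ℕ} (G : SimpleGraph (Fin n)) : Small G ↔
    ∃ g : Fin n → ℕ × ℕ, (∀ v, (g v).1 < 3 ∧ (g v).2 < n) ∧ ∀ u v, G.Adj u v → B (g u) (g v) := by
  classical
  constructor
  · rintro ⟨p, q, hq, hp, hpq, f, hf, h⟩
    set ρ : Fin n → ℕ := fun v => 3 * (f v % q) + f v / q with hρ
    refine ⟨fun v => (f v / q, (Finset.univ.filter fun w => ρ w < ρ v).card), fun v => ⟨?_, ?_⟩,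
      fun u v huv => ?_⟩
    · have := hf v
      exact Nat.div_lt_of_lt_mul (by omega)
    · change (Finset.univ.filter fun w => ρ w < ρ v).card < n
      refine lt_of_lt_of_eq (Finset.card_lt_card (t := Finset.univ) ?_) (by simp)
      rw [Finset.ssubset_univ_iff]
      intro he
      have := Finset.mem_univ v
      rw [← he, Finset.mem_filter] at this
      exact lt_irrefl _ this.2
    · obtain ⟨h1, h2, h3, h4⟩ := rank_aux hq hpq (hf u) (hf v) (h u v huv)
      refine ⟨h1, h2, h3, fun h5 => ?_⟩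
      have h6 : ρ u < ρ v := h4 h5
      change (Finset.univ.filter fun w => ρ w < ρ u).card < (Finset.univ.filter fun w => ρ w < ρ v).card
      refine Finset.card_lt_card ?_
      rw [Finset.ssubset_iff_of_subset]
      · refine ⟨u, by simpa using h6, by simp⟩
      · intro w hw
        rw [Finset.mem_filter] at hw ⊢
        exact ⟨hw.1, hw.2.trans h6⟩
  · rintro ⟨g, hg, h⟩
    refine ⟨3 * (n + 2) - 1, n + 2, by omega, by omega, by omega,
      fun v => (n + 2) * (g v).1 + (g v).2, fun v => ?_, fun u v huv => ?_⟩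
    · obtain ⟨h1, h2⟩ := hg v
      simp only
      have : (g v).1 = 0 ∨ (g v).1 = 1 ∨ (g v).1 = 2 := by omega
      rcases this with e | e | e <;> rw [e] <;> omega
    · obtain ⟨h1, h2, h3, h4⟩ := h u v huv
      obtain ⟨-, -, -, h4'⟩ := h v u huv.symm
      have h5 := (hg u).2
      have h6 := (hg v).2
      unfold A
      simp only
      have hi : (g u).1 = 0 ∨ (g u).1 = 1 ∨ (g u).1 = 2 := by omega
      have hj : (g v).1 = 0 ∨ (g v).1 = 1 ∨ (g v).1 = 2 := by omega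
      rcases hi with e | e | e <;> rcases hj with e' | e' | e' <;> rw [e, e'] at h4 h4' h3 ⊢ <;>
        simp at h3 h4 h4' ⊢ <;> omega

end Pool.Agent.Q324.CC
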