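import Mathlib

/-!
# The circular chromatic number: definitions
-/

namespace Pool.Agent.Q324.CC

variable {V : Type*}

/-- A `(p, q)`-colouring: a map `c` to `{0, …, p-1}` with `q ≤ |c u - c v| ≤ p - q` for every
edge `uv`. -/
def IsColoring (G : SimpleGraph V) (p q : ℕ) (c : V → Fin p) : Prop :=
  ∀ u v, G.Adj u v → (q : ℤ) ≤ |((c u : ℕ) : ℤ) - ((c v : ℕ) : ℤ)| ∧
    |((c u : ℕ) : ℤ) - ((c v : ℕ) : ℤ)| ≤ (p : ℤ) - q

/-- The circular chromatic number: the infimum of `p / q` over all `p ≥ 2 q ≥ 2` such that there is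
a `(p, q)`-colouring. -/
noncomputable def circ (G : SimpleGraph V) : ℝ :=
  sInf {x : ℝ | ∃ p q : ℕ, 2 ≤ 2 * q ∧ 2 * q ≤ p ∧ (∃ c : V → Fin p, IsColoring G p q c) ∧
    x = (p : ℝ) / (q : ℝ)}

end Pool.Agent.Q324.CC
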