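import Pool.Agent.Q324.CC.Basic
import Pool.Agent.Q324.Base.Gr

/-!
# Deciding whether the circular chromatic number is smaller than three is in `NP`
-/

namespace Pool.Agent.Q324.CC

open Pool.Agent.NPC Pool.Agent.H692R2 Pool.Agent.Q324.Base

/-- the test of the condition `B` -/
def btest (a b : ℕ × ℕ) : Bool :=
  decide (a.1 < 3) && (decide (b.1 < 3) && (!(decide (a.1 = b.1)) &&
    (!(decide (b.1 = (a.1 + 1) % 3)) || decide (a.2 < b.2))))

theorem btest_iff (a b : ℕ × ℕ) : btest a b = true ↔ B a b := by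
  unfold btest B
  simp only [Bool.and_eq_true, decide_eq_true_eq, Bool.not_eq_true', decide_eq_false_iff_not,
    Bool.or_eq_true, ne_eq]
  tauto

theorem btest_poly : Poly (fun p : (ℕ × ℕ) × (ℕ × ℕ) => btest p.1 p.2) := by
  unfold btest
  fun_prop

theorem btest_poly' {α : Type} [TEnc α] {a b : α → ℕ × ℕ} (h1 : Poly a) (h2 : Poly b) :
    Poly (fun x => btest (a x) (b x)) := btest_poly.comp (Poly.pair h1 h2)

attribute [fun_prop] btest_poly' ent_poly' rg_poly'

/-- the verifier -/
def ver (x : Mx × List (ℕ × ℕ)) : Bool :=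
  (rg x.1).all (fun i => decide ((x.2.getD i (0, 0)).1 < 3) &&
    decide ((x.2.getD i (0, 0)).2 < x.1.length)) &&
  (rg x.1).all (fun i => (rg x.1).all (fun j => !(ent x.1 i j) ||
    btest (x.2.getD i (0, 0)) (x.2.getD j (0, 0))))

attribute [local irreducible] btest ent rg

theorem ver_poly : Poly ver := by
  unfold ver
  fun_prop

theorem ver_iff (G : FinGraph) (w : List (ℕ × ℕ)) : ver (G.matrix, w) = true ↔
    (∀ v : Fin G.n, (w.getD v (0, 0)).1 < 3 ∧ (w.getD v (0, 0)).2 < G.n) ∧
    ∀ u v : Fin G.n, G.graph.Adj u v → B (w.getD u (0, 0)) (w.getD v (0, 0)) := by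
  unfold ver
  simp only [Bool.and_eq_true, List.all_eq_true, decide_eq_true_eq, mem_rg, Bool.or_eq_true,
    Bool.not_eq_true', length_matrix, btest_iff]
  constructor
  · rintro ⟨h1, h2⟩
    refine ⟨fun v => h1 v v.2, fun u v huv => ?_⟩
    rcases h2 u u.2 v v.2 with h | h
    · rw [(ent_matrix G u v).2 huv] at h
      exact absurd h (by simp)
    · exact h
  · rintro ⟨h1, h2⟩
    refine ⟨fun i hi => h1 ⟨i, hi⟩, fun i hi j hj => ?_⟩
    by_cases h : ent G.matrix i j = true
    · exact Or.inr (h2 ⟨i, hi⟩ ⟨j, hj⟩ ((ent_matrix G ⟨i, hi⟩ ⟨j, hj⟩).1 h))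
    · exact Or.inl (by simpa using h)

theorem inNP_small : InNPP (fun G : FinGraph => Small G.graph) := by
  refine inNPP_finGraph ver_poly (Polynomial.X * (Polynomial.C 8 * Polynomial.X + 40) + 1) ?_
  intro G
  rw [small_iff]
  constructor
  · rintro ⟨g, hg, h⟩
    refine ⟨List.ofFn g, ?_, ?_⟩
    · have h1 : G.n < sz G.matrix := by
        have := length_lt_sz G.matrix
        rwa [length_matrix] at this
      have h3 : sz (List.ofFn g) ≤ (List.ofFn g).length * (8 * G.n + 39 + 1) + 1 := by
        refine sz_le_length_mul _ _ ?_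
        intro a ha
        rw [List.mem_ofFn] at ha
        obtain ⟨v, rfl⟩ := ha
        obtain ⟨h4, h5⟩ := hg v
        have e1 := sz_nat_le (g v).1
        have e2 := Poly.size_le_self (g v).1
        have e3 := sz_nat_le (g v).2
        have e4 := Poly.size_le_self (g v).2
        have e5 : sz (g v) = sz (g v).1 + sz (g v).2 + 1 := sz_pair _ _
        omega
      rw [List.length_ofFn] at h3
      simp only [Polynomial.eval_add, Polynomial.eval_mul, Polynomial.eval_X, Polynomial.eval_C,
        Polynomial.eval_one, Polynomial.eval_ofNat]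
      refine h3.trans (Nat.add_le_add_right (Nat.mul_le_mul (by omega) (by omega)) 1)
    · rw [ver_iff]
      simp only [getD_ofFn]
      exact ⟨hg, h⟩
  · rintro ⟨w, -, hw⟩
    rw [ver_iff] at hw
    exact ⟨fun v => w.getD v (0, 0), hw.1, hw.2⟩

end Pool.Agent.Q324.CC
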