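import Pool.Agent.Q324.CC.NP
import Pool.Agent.Q324.Lab.Basic
import Pool.Agent.H648R3.WC.Nae

/-!
# The reduction from not-all-equal satisfiability
-/

namespace Pool.Agent.Q324.CC

open Pool.Agent.NPC Pool.Agent.NPC.WC648 Pool.Agent.H692R2 Pool.Agent.Q324.Lab

theorem A.symm {p q a b : ℕ} (h : A p q a b) : A p q b a := by
  unfold A at *
  tauto

/-- labels: kind, variable, index of the clause, position -/
abbrev Lb : Type := ℕ × NV × ℕ × ℕ

/-- a default variable -/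
def dv : NV := (0, 0, false)

/-- the labels of a clause -/
def blk (c : NV × NV × NV) (i : ℕ) : List Lb :=
  [(1, c.1, 0, 0), (1, c.2.1, 0, 0), (1, c.2.2, 0, 0),
    (2, c.1, 0, 0), (2, c.2.1, 0, 0), (2, c.2.2, 0, 0),
    (3, dv, i, 0), (3, dv, i, 1), (3, dv, i, 2),
    (4, c.1, i, 0), (4, c.2.1, i, 1), (4, c.2.2, i, 2),
    (5, dv, i, 0), (5, dv, i, 1), (5, dv, i, 2),
    (6, dv, i, 0), (6, dv, i, 1), (6, dv, i, 2)]

/-- the labels -/
def vs (φ : List (NV × NV × NV)) : List Lb :=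
  (0, dv, 0, 0) :: φ.zipIdx.flatMap (fun p => blk p.1 p.2)

/-- the adjacency test -/
def ad (a b : Lb) : Bool :=
  (decide (a.1 = 0) && (decide (b.1 = 2) || (decide (b.1 = 3) || decide (b.1 = 5)))) ||
  ((decide (a.1 = 1) && ((decide (b.1 = 2) || decide (b.1 = 4)) && decide (a.2.1 = b.2.1))) ||
  ((decide (a.1 = 4) && ((decide (b.1 = 3) || (decide (b.1 = 5) || decide (b.1 = 6))) &&
    decide (a.2.2 = b.2.2))) ||
  (decide (a.1 = 6) && (decide (b.1 = 3) && (decide (a.2.2.1 = b.2.2.1) &&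
    decide (b.2.2.2 = (a.2.2.2 + 1) % 3))))))

/-- the graph of the reduction -/
noncomputable def red (φ : List (NV × NV × NV)) : FinGraph := labGraph (vs φ) ad

theorem vs_poly : Poly vs := by
  unfold vs blk
  fun_prop

theorem red_poly : Poly red := by
  unfold red
  refine poly_labGraph (ad := fun _ => ad) vs_poly ?_
  unfold ad
  fun_prop

theorem small_lab {Λ : Type} [DecidableEq Λ] (vs : List Λ) (ad : Λ → Λ → Bool) :
    Small (labGraph vs ad).graph ↔ ∃ p q : ℕ, 0 < q ∧ 2 * q ≤ p ∧ p < 3 * q ∧ ∃ f : Λ → ℕ,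
      (∀ a ∈ vs, f a < p) ∧ ∀ a ∈ vs, ∀ b ∈ vs, a ≠ b → ad a b = true → A p q (f a) (f b) := by
  constructor
  · rintro ⟨p, q, hq, hp, hpq, f, hf, h⟩
    refine ⟨p, q, hq, hp, hpq, fun a => if h : a ∈ vs then
      f ⟨vs.idxOf a, List.idxOf_lt_length_iff.2 h⟩ else 0, fun a ha => ?_, fun a ha b hb hab had => ?_⟩
    · simp only [dif_pos ha]
      exact hf _
    · simp only [dif_pos ha, dif_pos hb]
      refine h _ _ ?_
      change sym ad (vs[vs.idxOf a]'(List.idxOf_lt_length_iff.2 ha))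
        (vs[vs.idxOf b]'(List.idxOf_lt_length_iff.2 hb)) = true
      rw [List.getElem_idxOf, List.getElem_idxOf, sym_iff]
      exact ⟨hab, Or.inl had⟩
  · rintro ⟨p, q, hq, hp, hpq, f, hf, h⟩
    refine ⟨p, q, hq, hp, hpq, fun i => f (vs[i.1]'i.2), fun i => hf _ (List.getElem_mem _), ?_⟩
    intro i j hij
    have hij' : sym ad (vs[i.1]'i.2) (vs[j.1]'j.2) = true := hij
    rw [sym_iff] at hij'
    rcases hij' with ⟨h1, h2 | h2⟩
    · exact h _ (List.getElem_mem _) _ (List.getElem_mem _) h1 h2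
    · exact (h _ (List.getElem_mem _) _ (List.getElem_mem _) h1.symm h2).symm

/-! ### Soundness -/

/-- normalised colours -/
def nrm (p o a : ℕ) : ℕ := if o ≤ a then a - o else a + p - o

theorem nrm_self (p o : ℕ) : nrm p o o = 0 := by simp [nrm]

theorem nrm_lt {p o a : ℕ} (ha : a < p) (ho : o < p) : nrm p o a < p := by
  unfold nrm
  split_ifs <;> omega

theorem nrm_A {p q o a b : ℕ} (ha : a < p) (hb : b < p) (ho : o < p) (h : A p q a b) :
    A p q (nrm p o a) (nrm p o b) := by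
  unfold nrm A at *
  split_ifs <;> omega

theorem opp {p q u v m m' : ℕ} (hp : 2 * q ≤ p) (hpq : p < 3 * q) (hu : u < p) (hv : v < p)
    (hm : m < p) (hm' : m' < p)
    (h1 : A p q 0 m) (h2 : A p q u m) (h3 : A p q 0 m') (h4 : A p q v m') (h5 : A p q v u) :
    (u ≤ p - 2 * q ↔ ¬ v ≤ p - 2 * q) := by
  unfold A at *
  omega

theorem ord {p q u m x y w : ℕ} (hp : 2 * q ≤ p) (hpq : p < 3 * q) (hu : u < p) (hm : m < p)
    (hx : x < p) (hy : y < p) (hw : w < p)
    (h1 : A p q 0 m) (h2 : A p q u m) (h3 : A p q 0 x) (h4 : A p q 0 y) (h5 : A p q u x)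
    (h6 : A p q u w) (h7 : A p q w y) :
    (u ≤ p - 2 * q → y < x) ∧ (¬ u ≤ p - 2 * q → x < y) := by
  unfold A at *
  omega

theorem sound {φ : List (NV × NV × NV)} (h : Small (red φ).graph) : NAE φ := by
  unfold red at h
  rw [small_lab] at h
  obtain ⟨p, q, hq, hp, hpq, f, hf, h⟩ := h
  set o : Lb := (0, dv, 0, 0) with ho
  have hov : o ∈ vs φ := List.mem_cons_self
  set g : Lb → ℕ := fun a => nrm p (f o) (f a) with hg
  have g0 : g o = 0 := nrm_self _ _
  have hgl : ∀ a ∈ vs φ, g a < p := fun a ha => nrm_lt (hf a ha) (hf o hov)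
  have hgA : ∀ a ∈ vs φ, ∀ b ∈ vs φ, a.1 ≠ b.1 → ad a b = true → A p q (g a) (g b) :=
    fun a ha b hb hab had => nrm_A (hf a ha) (hf b hb) (hf o hov)
      (h a ha b hb (fun e => hab (congrArg Prod.fst e)) had)
  have z0 : ∀ b, A p q (g o) b → A p q 0 b := fun b hb => by rwa [g0] at hb
  refine ⟨fun v => decide (g (1, v, 0, 0) ≤ p - 2 * q), ?_⟩
  intro c hc
  obtain ⟨i, hi⟩ := List.getElem?_of_mem hc
  have hmem : ∀ t ∈ blk c i, t ∈ vs φ := by
    intro t ht
    refine List.mem_cons_of_mem _ ?_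
    rw [List.mem_flatMap]
    exact ⟨(c, i), List.mem_zipIdx_iff_getElem?.2 hi, ht⟩
  have side : ∀ (v : NV) (j : ℕ), (1, v, 0, 0) ∈ blk c i → (2, v, 0, 0) ∈ blk c i →
      (4, v, i, j) ∈ blk c i → (5, dv, i, j) ∈ blk c i →
      (g (4, v, i, j) ≤ p - 2 * q ↔ ¬ g (1, v, 0, 0) ≤ p - 2 * q) := by
    intro v j h1 h2 h3 h4
    refine opp (m := g (5, dv, i, j)) (m' := g (2, v, 0, 0)) hp hpq (hgl _ (hmem _ h3))
      (hgl _ (hmem _ h1)) (hgl _ (hmem _ h4)) (hgl _ (hmem _ h2)) ?_ ?_ ?_ ?_ ?_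
    · exact z0 _ (hgA _ hov _ (hmem _ h4) (by simp [o]) (by simp [ad, o]))
    · exact hgA _ (hmem _ h3) _ (hmem _ h4) (by simp) (by simp [ad])
    · exact z0 _ (hgA _ hov _ (hmem _ h2) (by simp [o]) (by simp [ad, o]))
    · exact hgA _ (hmem _ h1) _ (hmem _ h2) (by simp) (by simp [ad])
    · exact hgA _ (hmem _ h1) _ (hmem _ h3) (by simp) (by simp [ad])
  have ordr : ∀ (v : NV) (j k : ℕ), (4, v, i, j) ∈ blk c i → (5, dv, i, j) ∈ blk c i →
      (3, dv, i, j) ∈ blk c i → (3, dv, i, k) ∈ blk c i → (6, dv, i, j) ∈ blk c i →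
      k = (j + 1) % 3 →
      (g (4, v, i, j) ≤ p - 2 * q → g (3, dv, i, k) < g (3, dv, i, j)) ∧
      (¬ g (4, v, i, j) ≤ p - 2 * q → g (3, dv, i, j) < g (3, dv, i, k)) := by
    intro v j k h1 h2 h3 h4 h5 hk
    refine ord (m := g (5, dv, i, j)) (w := g (6, dv, i, j)) hp hpq (hgl _ (hmem _ h1))
      (hgl _ (hmem _ h2)) (hgl _ (hmem _ h3)) (hgl _ (hmem _ h4)) (hgl _ (hmem _ h5)) ?_ ?_ ?_ ?_
      ?_ ?_ ?_
    · exact z0 _ (hgA _ hov _ (hmem _ h2) (by simp [o]) (by simp [ad, o]))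
    · exact hgA _ (hmem _ h1) _ (hmem _ h2) (by simp) (by simp [ad])
    · exact z0 _ (hgA _ hov _ (hmem _ h3) (by simp [o]) (by simp [ad, o]))
    · exact z0 _ (hgA _ hov _ (hmem _ h4) (by simp [o]) (by simp [ad, o]))
    · exact hgA _ (hmem _ h1) _ (hmem _ h3) (by simp) (by simp [ad])
    · exact hgA _ (hmem _ h1) _ (hmem _ h5) (by simp) (by simp [ad])
    · exact hgA _ (hmem _ h5) _ (hmem _ h4) (by simp) (by simp [ad, hk])
  have s0 := side c.1 0 (by simp [blk]) (by simp [blk]) (by simp [blk]) (by simp [blk])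
  have s1 := side c.2.1 1 (by simp [blk]) (by simp [blk]) (by simp [blk]) (by simp [blk])
  have s2 := side c.2.2 2 (by simp [blk]) (by simp [blk]) (by simp [blk]) (by simp [blk])
  have o0 := ordr c.1 0 1 (by simp [blk]) (by simp [blk]) (by simp [blk]) (by simp [blk])
    (by simp [blk]) rfl
  have o1 := ordr c.2.1 1 2 (by simp [blk]) (by simp [blk]) (by simp [blk]) (by simp [blk])
    (by simp [blk]) rfl
  have o2 := ordr c.2.2 2 0 (by simp [blk]) (by simp [blk]) (by simp [blk]) (by simp [blk])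
    (by simp [blk]) rfl
  simp only [decide_eq_decide]
  rintro ⟨e1, e2⟩
  by_cases hs : g (1, c.1, 0, 0) ≤ p - 2 * q
  · have a0 := o0.2 (fun h => s0.1 h hs)
    have a1 := o1.2 (fun h => s1.1 h (e1.1 hs))
    have a2 := o2.2 (fun h => s2.1 h (e2.1 (e1.1 hs)))
    omega
  · have hs1 : ¬ g (1, c.2.1, 0, 0) ≤ p - 2 * q := fun h => hs (e1.2 h)
    have hs2 : ¬ g (1, c.2.2, 0, 0) ≤ p - 2 * q := fun h => hs1 (e2.2 h)
    have a0 := o0.1 (s0.2 hs)
    have a1 := o1.1 (s1.2 hs1)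
    have a2 := o2.1 (s2.2 hs2)
    omega

/-! ### Completeness -/

/-- colours for a clause: for every position the colours of the vertices of the kinds 3, 4, 5, 6 -/
def tab : Bool → Bool → Bool → List (List ℕ)
  | false, false, true => [[5, 2, 5, 7], [4, 1, 4, 6], [3, 6, 3, 1]]
  | false, true, false => [[4, 1, 4, 6], [3, 6, 3, 1], [5, 2, 5, 7]]
  | false, true, true => [[5, 1, 4, 6], [3, 6, 3, 1], [4, 7, 3, 2]]
  | true, false, false => [[3, 6, 3, 1], [5, 2, 5, 7], [4, 1, 4, 6]]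
  | true, false, true => [[4, 7, 3, 2], [5, 1, 4, 6], [3, 6, 3, 1]]
  | true, true, false => [[3, 6, 3, 1], [4, 7, 3, 2], [5, 1, 4, 6]]
  | _, _, _ => []

/-- the entries of the table -/
def tb (s : Bool × Bool × Bool) (j k : ℕ) : ℕ := ((tab s.1 s.2.1 s.2.2).getD j []).getD k 0

/-- the value at a position -/
def at3 {β : Type} (c : β × β × β) (j : ℕ) : β :=
  if j = 0 then c.1 else if j = 1 then c.2.1 else c.2.2

theorem tb_ok : ∀ s : Bool × Bool × Bool, ¬ (s.1 = s.2.1 ∧ s.2.1 = s.2.2) → ∀ j < 3,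
    (∀ k < 4, tb s j k < 8) ∧ A 8 3 0 (tb s j 0) ∧ A 8 3 0 (tb s j 2) ∧
    A 8 3 (bif at3 s j then 2 else 6) (tb s j 1) ∧ A 8 3 (tb s j 1) (tb s j 0) ∧
    A 8 3 (tb s j 1) (tb s j 2) ∧ A 8 3 (tb s j 1) (tb s j 3) ∧
    A 8 3 (tb s j 3) (tb s ((j + 1) % 3) 0) := by
  decide

/-- the labels that occur -/
def Good (φ : List (NV × NV × NV)) (a : Lb) : Prop :=
  (a.1 = 0 ∨ a.1 = 1 ∨ a.1 = 2) ∨
  ((a.1 = 3 ∨ a.1 = 5 ∨ a.1 = 6) ∧ a.2.2.2 < 3 ∧ ∃ c, φ[a.2.2.1]? = some c) ∨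
  (a.1 = 4 ∧ a.2.2.2 < 3 ∧ ∃ c, φ[a.2.2.1]? = some c ∧ a.2.1 = at3 c a.2.2.2)

theorem good {φ : List (NV × NV × NV)} {a : Lb} (ha : a ∈ vs φ) : Good φ a := by
  unfold vs at ha
  rw [List.mem_cons, List.mem_flatMap] at ha
  rcases ha with rfl | ⟨⟨c, i⟩, hci, ha⟩
  · exact Or.inl (Or.inl rfl)
  rw [List.mem_zipIdx_iff_getElem?] at hci
  simp only at hci ha
  simp only [blk, List.mem_cons, List.not_mem_nil, or_false] at ha
  rcases ha with rfl | rfl | rfl | rfl | rfl | rfl | rfl | rfl | rfl | rfl | rfl | rfl | rfl |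
    rfl | rfl | rfl | rfl | rfl
  all_goals simp [Good, hci, at3]

theorem complete {φ : List (NV × NV × NV)} (h : NAE φ) : Small (red φ).graph := by
  obtain ⟨τ, hτ⟩ := h
  unfold red
  rw [small_lab]
  let pat : ℕ → Bool × Bool × Bool := fun i => match φ[i]? with
    | some c => (τ c.1, τ c.2.1, τ c.2.2)
    | none => (false, false, true)
  have hpat : ∀ i, ¬ ((pat i).1 = (pat i).2.1 ∧ (pat i).2.1 = (pat i).2.2) := by
    intro i
    cases hi : φ[i]? with
    | none => simp only [pat, hi]; simp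
    | some c =>
      simp only [pat, hi]
      exact hτ c (List.mem_of_getElem? hi)
  have hat : ∀ i c j, φ[i]? = some c → at3 (pat i) j = τ (at3 c j) := by
    intro i c j hi
    simp only [pat, hi, at3]
    split_ifs <;> rfl
  let f : Lb → ℕ := fun a => if a.1 = 0 then 0 else if a.1 = 1 then (bif τ a.2.1 then 2 else 6)
    else if a.1 = 2 then (bif τ a.2.1 then 5 else 3)
    else if a.1 = 3 then tb (pat a.2.2.1) a.2.2.2 0
    else if a.1 = 4 then tb (pat a.2.2.1) a.2.2.2 1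
    else if a.1 = 5 then tb (pat a.2.2.1) a.2.2.2 2
    else tb (pat a.2.2.1) a.2.2.2 3
  refine ⟨8, 3, by norm_num, by norm_num, by norm_num, f, fun a ha => ?_, fun a ha b hb _ had => ?_⟩
  · obtain ⟨k, v, i, j⟩ := a
    rcases good ha with (h | h | h) | ⟨h | h | h, hj, c, hc⟩ | ⟨h, hj, c, hc, -⟩ <;>
      simp only at h <;> subst h
    · exact (by norm_num : 0 < 8)
    · simp only [f]
      cases τ v <;> norm_num
    · simp only [f]
      cases τ v <;> norm_num
    · exact (tb_ok (pat i) (hpat i) j hj).1 0 (by norm_num)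
    · exact (tb_ok (pat i) (hpat i) j hj).1 2 (by norm_num)
    · exact (tb_ok (pat i) (hpat i) j hj).1 3 (by norm_num)
    · exact (tb_ok (pat i) (hpat i) j hj).1 1 (by norm_num)
  · obtain ⟨k, v, i, j⟩ := a
    obtain ⟨k', v', i', j'⟩ := b
    have ga := good ha
    have gb := good hb
    simp only [ad, Bool.or_eq_true, Bool.and_eq_true, decide_eq_true_eq, Prod.mk.injEq] at had
    rcases had with ⟨rfl, rfl | rfl | rfl⟩ | ⟨rfl, rfl | rfl, rfl⟩ |
      ⟨rfl, rfl | rfl | rfl, rfl, rfl⟩ | ⟨rfl, rfl, rfl, rfl⟩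
    · change A 8 3 0 (bif τ v' then 5 else 3)
      cases τ v' <;> decide
    · simp only [Good] at gb
      have hj : j' < 3 := by omega
      exact (tb_ok (pat i') (hpat i') j' hj).2.1
    · simp only [Good] at gb
      have hj : j' < 3 := by omega
      exact (tb_ok (pat i') (hpat i') j' hj).2.2.1
    · change A 8 3 (bif τ v then 2 else 6) (bif τ v then 5 else 3)
      cases τ v <;> decide
    · simp only [Good] at gb
      obtain ⟨hj, c, hc, hv⟩ : j' < 3 ∧ ∃ c, φ[i']? = some c ∧ v = at3 c j' := by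
        rcases gb with gb | gb | gb
        · omega
        · omega
        · exact gb.2
      have := (tb_ok (pat i') (hpat i') j' hj).2.2.2.1
      rw [hat i' c j' hc, ← hv] at this
      exact this
    · simp only [Good] at gb
      have hj : j < 3 := by omega
      exact (tb_ok (pat i) (hpat i) j hj).2.2.2.2.1
    · simp only [Good] at gb
      have hj : j < 3 := by omega
      exact (tb_ok (pat i) (hpat i) j hj).2.2.2.2.2.1
    · simp only [Good] at gb
      have hj : j < 3 := by omega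
      exact (tb_ok (pat i) (hpat i) j hj).2.2.2.2.2.2.1
    · simp only [Good] at ga
      have hj : j < 3 := by omega
      exact (tb_ok (pat i) (hpat i) j hj).2.2.2.2.2.2.2

theorem hardI_small : HardI (fun G : FinGraph => Small G.graph) :=
  hardI_NAE.trans red_poly (fun _ => ⟨complete, sound⟩)

end Pool.Agent.Q324.CC
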